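import Pool.Agent.Q256.UG.Stm
import Pool.Agent.Results.MP_2d259b_nt.FewExceptionalCurves

set_option autoImplicit false

/-!
# Project UG: job LGG, points of size more than a power of the height
-/

namespace Pool.Agent.Q275.UG

open Finset MvPolynomial
open Pool.Agent.Q256.UG
open Pool.Agent.Q256.UP (PBox PS mem_PS card_PS finite_pbox card_pbox)

theorem coeff_sum_le {d H : ℕ} {F : MvPolynomial (Fin 2) ℤ} (hF : F ∈ PBox d H) :
    ∑ m ∈ F.support, (F.coeff m).natAbs ≤ NC d * H := by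
  have h1 : F.support ⊆ PS d := by
    intro α hα
    rw [mem_PS]
    have h3 := le_totalDegree hα
    have h4 : (α.sum fun _ e => e) = α.degree := rfl
    have := hF.1
    omega
  calc ∑ m ∈ F.support, (F.coeff m).natAbs ≤ ∑ _m ∈ F.support, H := by
        refine Finset.sum_le_sum fun m _ => ?_
        have := hF.2 m
        zify
        exact this
    _ = F.support.card * H := by rw [Finset.sum_const, smul_eq_mul]
    _ ≤ NC d * H := by
        refine Nat.mul_le_mul_right _ ?_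
        have := Finset.card_le_card h1
        rw [card_PS] at this
        exact this

theorem rpow_le_of {H : ℕ} (hH : 1 ≤ H) {a : ℕ} {b : ℝ} (h : (a : ℝ) ≤ b) :
    (H : ℝ) ^ a ≤ (H : ℝ) ^ b := by
  rw [← Real.rpow_natCast]
  exact Real.rpow_le_rpow_of_exponent_le (by exact_mod_cast hH) h

theorem two_H {H : ℕ} (hH : 1 ≤ H) (a : ℕ) : ((2 * H + 1 : ℕ) : ℝ) ^ a ≤ 3 ^ a * (H : ℝ) ^ a := by
  rw [← mul_pow]
  refine pow_le_pow_left₀ (by positivity) ?_ _
  push_cast
  have : (1 : ℝ) ≤ H := by exact_mod_cast hH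
  linarith

theorem lgg : S_RED → S_SQF → S_LGG := by
  intro hRED hSQF d hd
  obtain ⟨C1, hC1, h1⟩ := hRED d (by omega)
  obtain ⟨C2, hC2, h2⟩ := hSQF d (by omega)
  set e : ℕ := 10 ^ 11 * 36 ^ d * (d + 1) ^ 13 with he
  set C4 : ℝ := ((10 ^ 9 * 36 ^ d * (d + 1) ^ 8 : ℕ) : ℝ) with hC4
  have hC4p : 0 ≤ C4 := Nat.cast_nonneg _
  refine ⟨(d + 1) * NC d, e, 3 ^ NC (d - 1) + C1 + C2 + C4 * 3 ^ (4 * d - 2), ?_, ?_⟩
  · have h3 : (0 : ℝ) ≤ 3 ^ NC (d - 1) := by positivity
    have h4 : (0 : ℝ) ≤ C4 * 3 ^ (4 * d - 2) := by positivity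
    linarith
  intro K H hK hH
  have hHr : (1 : ℝ) ≤ H := by exact_mod_cast hH
  have hRED' := h1 H hH
  have hSQF' := h2 H hH
  have hFew := (Pool.Agent.Results.MP_2d259b_nt.FewExceptionalCurves.result d (by omega) H).2
  rw [Nat.card_coe_set_eq] at hRED' hSQF'
  rw [Nat.card_coe_set_eq]
  set S1 : Set (MvPolynomial (Fin 2) ℤ) := {F | F ∈ PBox d H ∧ F.totalDegree = d ∧
      ¬ Irreducible (MvPolynomial.map (Int.castRingHom ℚ) F)} with hS1
  set S2 : Set (MvPolynomial (Fin 2) ℤ) := {F | F ∈ PBox d H ∧ F.totalDegree = d ∧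
      ¬ Squarefree (MvPolynomial.map (Int.castRingHom ℚ) (homogeneousComponent d F))} with hS2
  set W : Set (MvPolynomial (Fin 2) ℤ) := {F | (F.totalDegree = d ∧ ∀ m, |F.coeff m| ≤ (H : ℤ)) ∧
      Irreducible (MvPolynomial.map (Int.castRingHom ℚ) F) ∧
      Squarefree (MvPolynomial.map (Int.castRingHom ℚ) (MvPolynomial.homogeneousComponent d F)) ∧
      ∃ x y : ℤ, MvPolynomial.eval ![x, y] F = 0 ∧
        ((d + 1) * ∑ m ∈ F.support, (F.coeff m).natAbs) ^ (10 ^ 11 * 36 ^ d * (d + 1) ^ 13)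
          < max x.natAbs y.natAbs} with hW
  have hsub : {F | F ∈ PBox d H ∧ ∃ x y : ℤ, (((K * H) ^ e : ℕ) : ℤ) < max |x| |y| ∧
      eval ![x, y] F = 0} ⊆ ((PBox (d - 1) H ∪ S1) ∪ S2) ∪ W := by
    rintro F ⟨hF, x, y, hxy, h0⟩
    by_cases hdeg : F.totalDegree = d
    · by_cases hirr : Irreducible (MvPolynomial.map (Int.castRingHom ℚ) F)
      · by_cases hsq : Squarefree (MvPolynomial.map (Int.castRingHom ℚ) (homogeneousComponent d F))
        · right
          refine ⟨⟨hdeg, hF.2⟩, hirr, hsq, x, y, h0, ?_⟩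
          have h3 : (d + 1) * ∑ m ∈ F.support, (F.coeff m).natAbs ≤ K * H := by
            calc (d + 1) * ∑ m ∈ F.support, (F.coeff m).natAbs ≤ (d + 1) * (NC d * H) :=
                  Nat.mul_le_mul_left _ (coeff_sum_le hF)
              _ = (d + 1) * NC d * H := by ring
              _ ≤ K * H := Nat.mul_le_mul_right _ hK
          have h4 := Nat.pow_le_pow_left h3 e
          refine lt_of_le_of_lt h4 ?_
          have h5 : max |x| |y| = ((max x.natAbs y.natAbs : ℕ) : ℤ) := by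
            rw [Nat.cast_max, Int.natCast_natAbs, Int.natCast_natAbs]
          rw [h5] at hxy
          exact_mod_cast hxy
        · left; right
          exact ⟨hF, hdeg, hsq⟩
      · left; left; right
        exact ⟨hF, hdeg, hirr⟩
    · left; left; left
      refine ⟨?_, hF.2⟩
      have := hF.1
      omega
  have hfin1 : (PBox (d - 1) H).Finite := finite_pbox _ _
  have hfinS1 : S1.Finite := (finite_pbox d H).subset fun F hF => hF.1
  have hfinS2 : S2.Finite := (finite_pbox d H).subset fun F hF => hF.1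
  have hfinW : W.Finite := (finite_pbox d H).subset fun F hF => ⟨hF.1.1.le, hF.1.2⟩
  have hcard := Set.ncard_le_ncard hsub (((hfin1.union hfinS1).union hfinS2).union hfinW)
  have hu1 := Set.ncard_union_le ((PBox (d - 1) H ∪ S1) ∪ S2) W
  have hu2 := Set.ncard_union_le (PBox (d - 1) H ∪ S1) S2
  have hu3 := Set.ncard_union_le (PBox (d - 1) H) S1
  have hP : (PBox (d - 1) H).ncard = (2 * H + 1) ^ NC (d - 1) := by
    rw [← Nat.card_coe_set_eq, card_pbox]
    rfl
  have hall : ({F | F ∈ PBox d H ∧ ∃ x y : ℤ, (((K * H) ^ e : ℕ) : ℤ) < max |x| |y| ∧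
      eval ![x, y] F = 0} : Set (MvPolynomial (Fin 2) ℤ)).ncard ≤
      (2 * H + 1) ^ NC (d - 1) + S1.ncard + S2.ncard +
        10 ^ 9 * 36 ^ d * (d + 1) ^ 8 * (2 * H + 1) ^ (4 * d - 2) := by
    omega
  have hallR : (({F | F ∈ PBox d H ∧ ∃ x y : ℤ, (((K * H) ^ e : ℕ) : ℤ) < max |x| |y| ∧
      eval ![x, y] F = 0} : Set (MvPolynomial (Fin 2) ℤ)).ncard : ℝ) ≤
      ((2 * H + 1 : ℕ) : ℝ) ^ NC (d - 1) + S1.ncard + S2.ncard +
        C4 * ((2 * H + 1 : ℕ) : ℝ) ^ (4 * d - 2) := by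
    rw [hC4]
    exact_mod_cast hall
  refine hallR.trans ?_
  -- exponents
  have hNC : (NC d : ℝ) = (NC (d - 1) : ℝ) + (d + 1) := by
    obtain ⟨m, rfl⟩ : ∃ m, d = m + 1 := ⟨d - 1, by omega⟩
    have h5 : NC (m + 1) = NC m + (m + 2) := by
      unfold NC
      have : (m + 1 + 2).choose 2 = (m + 2).choose 1 + (m + 2).choose 2 :=
        Nat.choose_succ_succ (m + 2) 1
      rw [this, Nat.choose_one_right]
      ring
    rw [h5]
    simp only [Nat.add_sub_cancel]
    push_cast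
    ring
  have hNC2 : 4 * d ≤ NC d := by
    unfold NC
    rw [Nat.choose_two_right, Nat.le_div_iff_mul_le (by norm_num)]
    have : d + 2 - 1 = d + 1 := by omega
    rw [this]
    nlinarith
  have hNC2r : (4 * d : ℝ) ≤ NC d := by exact_mod_cast hNC2
  have hd7 : (7 : ℝ) ≤ d := by exact_mod_cast hd
  set E : ℝ := (H : ℝ) ^ ((NC d : ℝ) - 3 / 2) with hE
  have b1 : ((2 * H + 1 : ℕ) : ℝ) ^ NC (d - 1) ≤ 3 ^ NC (d - 1) * E := by
    refine (two_H hH _).trans (mul_le_mul_of_nonneg_left (rpow_le_of hH ?_) (by positivity))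
    rw [hNC]
    linarith
  have b2 : (S1.ncard : ℝ) ≤ C1 * E := by
    refine hRED'.trans (mul_le_mul_of_nonneg_left ?_ (by linarith))
    exact Real.rpow_le_rpow_of_exponent_le hHr (by linarith)
  have b4 : C4 * ((2 * H + 1 : ℕ) : ℝ) ^ (4 * d - 2) ≤ C4 * 3 ^ (4 * d - 2) * E := by
    rw [mul_assoc]
    refine mul_le_mul_of_nonneg_left ?_ hC4p
    refine (two_H hH _).trans (mul_le_mul_of_nonneg_left (rpow_le_of hH ?_) (by positivity))
    have : ((4 * d - 2 : ℕ) : ℝ) = 4 * d - 2 := by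
      rw [Nat.cast_sub (by omega)]
      push_cast
      ring
    rw [this]
    linarith
  calc ((2 * H + 1 : ℕ) : ℝ) ^ NC (d - 1) + S1.ncard + S2.ncard +
        C4 * ((2 * H + 1 : ℕ) : ℝ) ^ (4 * d - 2) ≤
        3 ^ NC (d - 1) * E + C1 * E + C2 * E + C4 * 3 ^ (4 * d - 2) * E := by
        linarith
    _ = _ := by ring

end Pool.Agent.Q275.UG
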